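import Mathlib
import Pool.Agent.Lib.MP_eb4995_an.Defs
import Pool.Agent.Lib.MP_eb4995_an.Cv.NFinal

namespace Pool.Agent.Results.MP_eb4995_an.ConvexBox

open Pool.Agent.Lib.MP_eb4995_an MeasureTheory

/-- In every dimension `N ≥ 2` and for every `q > 2` close to `2`, some open box has a
`q`-eigenvalue that is not a Lusternik-Schnirelman value. -/
theorem result (N : ℕ) (hN : 2 ≤ N) : ∃ δ : ℝ, 0 < δ ∧ ∀ q : ℝ, 2 < q → q < 2 + δ →
    ∃ a : Fin N → ℝ, (∀ i, 0 < a i) ∧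
      ∃ lam ∈ spec volume {x : EuclideanSpace ℝ (Fin N) | ∀ i, |x i| < a i} q,
        lam ∉ specLS volume {x : EuclideanSpace ℝ (Fin N) | ∀ i, |x i| < a i} q :=
  Cv.exists_box N hN

end Pool.Agent.Results.MP_eb4995_an.ConvexBox
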