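import Mathlib
import Pool.Agent.Lib.MP_eb4995_an.Defs
import Pool.Agent.Lib.MP_eb4995_an.Sl.Slab

namespace Pool.Agent.Results.MP_eb4995_an.LongBox

open Pool.Agent.Lib.MP_eb4995_an MeasureTheory

/-- In every dimension `N ≥ 3` and for every subcritical `q > 2`, some open box has a
`q`-eigenvalue that is not a Lusternik-Schnirelman value. -/
theorem result (N : ℕ) (hN : 3 ≤ N) (q : ℝ) (hq : 2 < q) (hq' : ((N : ℝ) - 2) * q < 2 * N) :
    ∃ a : Fin N → ℝ, (∀ i, 0 < a i) ∧
      ∃ lam ∈ spec volume {x : EuclideanSpace ℝ (Fin N) | ∀ i, |x i| < a i} q,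
        lam ∉ specLS volume {x : EuclideanSpace ℝ (Fin N) | ∀ i, |x i| < a i} q :=
  Sl.exists_long_box N hN q hq hq'

end Pool.Agent.Results.MP_eb4995_an.LongBox
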