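import Mathlib
import Pool.Agent.Lib.MP_eb4995_an.Defs
import Pool.Agent.Lib.MP_eb4995_an.Geometry

namespace Pool.Agent.Results.MP_eb4995_an.NotLS

open Pool.Agent.Lib.MP_eb4995_an MeasureTheory

/-- For every `N ≥ 2` and every `2 < q < 2^*` there is a connected open bounded set with a
`q`-eigenvalue that is not a Lusternik-Schnirelman value. -/
theorem result (N : ℕ) (hN : 2 ≤ N) (q : ℝ) (hq : 2 < q) (hq' : ((N : ℝ) - 2) * q < 2 * N) :
    ∃ Ω : Set (EuclideanSpace ℝ (Fin N)), IsOpen Ω ∧ Bornology.IsBounded Ω ∧ IsConnected Ω ∧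
      ∃ lam ∈ spec volume Ω q, lam ∉ specLS volume Ω q :=
  exists_domain (by simpa using hN) hq (by simpa using hq')

end Pool.Agent.Results.MP_eb4995_an.NotLS
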